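import Mathlib

open Set Filter Topology

namespace PoolH73Nabla

/-- `x` and `y` agree below `l`. -/
def Agree (x y : ℕ → ℕ∞) (l : ℕ) : Prop := ∀ i < l, x i = y i

lemma stage (W : Set (ℕ → ℕ∞)) (U : ℕ → ℕ → Set (ℕ → ℕ∞))
    (hWo : ∀ x ∈ W, ∃ n, ∀ y, Agree y x n → y ∈ W)
    (hWd : ∀ x l, ∃ y ∈ W, Agree y x l)
    (hUo : ∀ n k, ∀ x ∈ U n k, ∃ l, ∀ y, Agree y x l → y ∈ U n k)
    (hUd : ∀ n x l, ∃ k, ∃ y ∈ U n k, Agree y x l)
    (x y : ℕ → ℕ∞) (l : ℕ) :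
    ∃ (x' y' : ℕ → ℕ∞) (l' : ℕ), l < l' ∧ Agree x' x l ∧ Agree y' y l ∧
      (∀ w, Agree w x' l' → w ∈ W) ∧ (∀ w, Agree w y' l' → w ∈ W) ∧ y' l = ⊤ ∧
      (∃ k : ℕ, (∀ w, Agree w y' l' → w ∈ U l k) ∧ x' l = (k : ℕ∞) + 1) ∧
      (∀ i, l < i → x' i = y' i) := by
  obtain ⟨k, y2, hy2U, hy2⟩ := hUd l (Function.update y l ⊤) (l + 1)
  obtain ⟨n1, hn1⟩ := hUo l k y2 hy2U
  set x2 : ℕ → ℕ∞ := fun i => if i < l then x i else if i = l then (k : ℕ∞) + 1 else y2 i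
    with hx2
  obtain ⟨x3, hx3W, hx3⟩ := hWd x2 (max (l + 1) n1)
  obtain ⟨n2, hn2⟩ := hWo x3 hx3W
  set y3 : ℕ → ℕ∞ := fun i => if i ≤ l then y2 i else x3 i with hy3
  set N2 := max (max (l + 1) n1) n2 with hN2
  obtain ⟨y4, hy4W, hy4⟩ := hWd y3 N2
  obtain ⟨n3, hn3⟩ := hWo y4 hy4W
  set x4 : ℕ → ℕ∞ := fun i => if i ≤ l then x3 i else y4 i with hx4
  have e1 : ∀ i < l, y2 i = y i := by
    intro i hi
    rw [hy2 i (by omega), Function.update_of_ne (by omega)]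
  have e2 : y2 l = ⊤ := by
    rw [hy2 l (by omega), Function.update_self]
  have e3 : ∀ i < max (l + 1) n1, y3 i = y2 i := by
    intro i hi
    simp only [hy3]
    split_ifs with h
    · rfl
    · rw [hx3 i hi]
      simp only [hx2]
      rw [if_neg (by omega), if_neg (by omega)]
  have e4 : ∀ i < N2, x4 i = x3 i := by
    intro i hi
    simp only [hx4]
    split_ifs with h
    · rfl
    · rw [hy4 i hi]
      simp only [hy3]
      rw [if_neg h]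
  have e5 : ∀ i < max (l + 1) n1, y4 i = y2 i := by
    intro i hi
    rw [hy4 i (lt_of_lt_of_le hi (le_max_left _ _)), e3 i hi]
  refine ⟨x4, y4, max N2 n3, ?_, ?_, ?_, ?_, ?_, ?_, ⟨k, ?_, ?_⟩, ?_⟩
  · have : l + 1 ≤ N2 := le_trans (le_max_left _ _) (le_max_left _ _)
    exact lt_of_lt_of_le (by omega) (le_max_left _ _)
  · intro i hi
    have h1 : i < max (l + 1) n1 := lt_of_lt_of_le (by omega) (le_max_left _ _)
    rw [e4 i (lt_of_lt_of_le h1 (le_max_left _ _)), hx3 i h1]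
    simp only [hx2]
    rw [if_pos hi]
  · intro i hi
    have h1 : i < max (l + 1) n1 := lt_of_lt_of_le (by omega) (le_max_left _ _)
    rw [e5 i h1, e1 i hi]
  · intro w hw
    apply hn2
    intro i hi
    have h1 : i < N2 := lt_of_lt_of_le hi (le_max_right _ _)
    rw [hw i (lt_of_lt_of_le h1 (le_max_left _ _)), e4 i h1]
  · intro w hw
    apply hn3
    intro i hi
    rw [hw i (lt_of_lt_of_le hi (le_max_right _ _))]
  · rw [e5 l (lt_of_lt_of_le (by omega) (le_max_left _ _)), e2]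
  · intro w hw
    apply hn1
    intro i hi
    have h1 : i < max (l + 1) n1 := lt_of_lt_of_le hi (le_max_right _ _)
    rw [hw i (lt_of_lt_of_le (lt_of_lt_of_le h1 (le_max_left _ _)) (le_max_left _ _)), e5 i h1]
  · have h1 : l < max (l + 1) n1 := lt_of_lt_of_le (by omega) (le_max_left _ _)
    rw [e4 l (lt_of_lt_of_le h1 (le_max_left _ _)), hx3 l h1]
    simp [hx2]
  · intro i hi
    simp only [hx4]
    rw [if_neg (by omega)]

/-- limits of sequences of finite approximations -/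
lemma exists_limit (X : ℕ → ℕ → ℕ∞) (L : ℕ → ℕ) (hL : StrictMono L)
    (h : ∀ m, Agree (X (m + 1)) (X m) (L m)) :
    ∃ x : ℕ → ℕ∞, ∀ m, Agree x (X m) (L m) := by
  have key : ∀ m j, Agree (X (m + j)) (X m) (L m) := by
    intro m j
    induction j with
    | zero => intro i _; rfl
    | succ j ih =>
      intro i hi
      have h1 := h (m + j) i (lt_of_lt_of_le hi (hL.monotone (Nat.le_add_right m j)))
      rw [show m + (j + 1) = m + j + 1 by ring, h1, ih i hi]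
  refine ⟨fun i => X (i + 1) i, ?_⟩
  intro m i hi
  show X (i + 1) i = X m i
  rcases le_total m (i + 1) with hm | hm
  · obtain ⟨j, hj⟩ := Nat.exists_eq_add_of_le hm
    rw [hj]
    exact key m j i hi
  · obtain ⟨j, rfl⟩ := Nat.exists_eq_add_of_le hm
    have h1 : i < L (i + 1) := lt_of_lt_of_le (Nat.lt_succ_self i) (hL.le_apply)
    exact (key (i + 1) j i h1).symm

/-- one step of the construction, both orders -/
lemma step (W : Set (ℕ → ℕ∞)) (U : ℕ → ℕ → Set (ℕ → ℕ∞))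
    (hWo : ∀ x ∈ W, ∃ n, ∀ y, Agree y x n → y ∈ W)
    (hWd : ∀ x l, ∃ y ∈ W, Agree y x l)
    (hUo : ∀ n k, ∀ x ∈ U n k, ∃ l, ∀ y, Agree y x l → y ∈ U n k)
    (hUd : ∀ n x l, ∃ k, ∃ y ∈ U n k, Agree y x l)
    (x y : ℕ → ℕ∞) (l : ℕ) :
    ∃ (x' y' : ℕ → ℕ∞) (l' q : ℕ), l < q ∧ q < l' ∧ Agree x' x l ∧ Agree y' y l ∧
      (∀ w, Agree w x' l' → w ∈ W) ∧ (∀ w, Agree w y' l' → w ∈ W) ∧
      y' l = ⊤ ∧ x' l ≠ ⊤ ∧ x' q = ⊤ ∧ y' q ≠ ⊤ ∧
      (∀ i, l ≤ i → i < l' → x' i = y' i ∨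
        (y' i = ⊤ ∧ ∃ k : ℕ, (∀ w, Agree w y' l' → w ∈ U i k) ∧ x' i = (k : ℕ∞) + 1) ∨
        (x' i = ⊤ ∧ ∃ k : ℕ, (∀ w, Agree w x' l' → w ∈ U i k) ∧ y' i = (k : ℕ∞) + 1)) := by
  obtain ⟨x1, y1, l1, h1, h2, h3, h4, h5, h6, ⟨k1, h7, h8⟩, h9⟩ :=
    stage W U hWo hWd hUo hUd x y l
  obtain ⟨y2, x2, l2, g1, g2, g3, g4, g5, g6, ⟨k2, g7, g8⟩, g9⟩ :=
    stage W U hWo hWd hUo hUd y1 x1 l1
  have hk : ∀ k : ℕ, (k : ℕ∞) + 1 ≠ ⊤ := by
    intro k
    exact_mod_cast ENat.natCast_ne_top (k + 1)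
  refine ⟨x2, y2, l2, l1, h1, g1, ?_, ?_, g5, g4, ?_, ?_, g6, ?_, ?_⟩
  · intro i hi
    rw [g3 i (by omega), h2 i hi]
  · intro i hi
    rw [g2 i (by omega), h3 i hi]
  · rw [g2 l h1, h6]
  · rw [g3 l h1, h8]
    exact hk _
  · rw [g8]
    exact hk _
  · intro i hi hi2
    rcases lt_trichotomy i l1 with h | h | h
    · rcases eq_or_lt_of_le hi with h' | h'
      · subst h'
        right; left
        refine ⟨by rw [g2 l h1, h6], k1, ?_, by rw [g3 l h1, h8]⟩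
        intro w hw
        apply h7
        intro j hj
        rw [hw j (by omega), g2 j hj]
      · left
        rw [g3 i h, g2 i h, h9 i h']
    · subst h
      right; right
      exact ⟨g6, k2, g7, g8⟩
    · left
      exact (g9 i h).symm

/-- The combinatorial core. -/
theorem core (W : ℕ → Set (ℕ → ℕ∞)) (U : ℕ → ℕ → Set (ℕ → ℕ∞))
    (hWo : ∀ m, ∀ x ∈ W m, ∃ n, ∀ y, Agree y x n → y ∈ W m)
    (hWd : ∀ m x l, ∃ y ∈ W m, Agree y x l)
    (hUo : ∀ n k, ∀ x ∈ U n k, ∃ l, ∀ y, Agree y x l → y ∈ U n k)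
    (hUd : ∀ n x l, ∃ k, ∃ y ∈ U n k, Agree y x l) :
    ∃ x y : ℕ → ℕ∞, (∀ m, x ∈ W m) ∧ (∀ m, y ∈ W m) ∧
      {n | x n ≠ ⊤ ∧ y n = ⊤}.Infinite ∧ {n | y n ≠ ⊤ ∧ x n = ⊤}.Infinite ∧
      ∀ i, x i = y i ∨
        (y i = ⊤ ∧ ∃ k : ℕ, y ∈ U i k ∧ x i = (k : ℕ∞) + 1) ∨
        (x i = ⊤ ∧ ∃ k : ℕ, x ∈ U i k ∧ y i = (k : ℕ∞) + 1) := by
  choose fx fy fl fq c1 c2 c3 c4 c5 c6 c7 c8 c9 c10 c11 using
    fun m => step (W m) U (hWo m) (hWd m) hUo hUd
  let st : ℕ → (ℕ → ℕ∞) × (ℕ → ℕ∞) × ℕ := fun m => Nat.rec ((fun _ => ⊤), (fun _ => ⊤), 0)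
    (fun m s => (fx m s.1 s.2.1 s.2.2, fy m s.1 s.2.1 s.2.2, fl m s.1 s.2.1 s.2.2)) m
  have hst : ∀ m, st (m + 1) = (fx m (st m).1 (st m).2.1 (st m).2.2,
    fy m (st m).1 (st m).2.1 (st m).2.2, fl m (st m).1 (st m).2.1 (st m).2.2) := fun m => rfl
  set X : ℕ → ℕ → ℕ∞ := fun m => (st m).1 with hX
  set Y : ℕ → ℕ → ℕ∞ := fun m => (st m).2.1 with hY
  set L : ℕ → ℕ := fun m => (st m).2.2 with hL
  have eX : ∀ m, X (m + 1) = fx m (X m) (Y m) (L m) := fun m => rfl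
  have eY : ∀ m, Y (m + 1) = fy m (X m) (Y m) (L m) := fun m => rfl
  have eL : ∀ m, L (m + 1) = fl m (X m) (Y m) (L m) := fun m => rfl
  have hmono : StrictMono L := by
    apply strictMono_nat_of_lt_succ
    intro m
    rw [eL]
    exact lt_trans (c1 m _ _ _) (c2 m _ _ _)
  obtain ⟨x, hx⟩ := exists_limit X L hmono (fun m => by rw [eX]; exact c3 m _ _ _)
  obtain ⟨y, hy⟩ := exists_limit Y L hmono (fun m => by rw [eY]; exact c4 m _ _ _)
  have hxa : ∀ m i, i < L (m + 1) → x i = X (m + 1) i := fun m i hi => hx (m + 1) i hi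
  have hya : ∀ m i, i < L (m + 1) → y i = Y (m + 1) i := fun m i hi => hy (m + 1) i hi
  refine ⟨x, y, ?_, ?_, ?_, ?_, ?_⟩
  · intro m
    apply c5 m (X m) (Y m) (L m)
    rw [← eX, ← eL]
    exact hx (m + 1)
  · intro m
    apply c6 m (X m) (Y m) (L m)
    rw [← eY, ← eL]
    exact hy (m + 1)
  · refine (Set.infinite_range_of_injective hmono.injective).mono ?_
    rintro _ ⟨m, rfl⟩
    have h1 : L m < L (m + 1) := hmono (Nat.lt_succ_self m)
    refine ⟨?_, ?_⟩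
    · rw [hxa m _ h1, eX]
      exact c8 m _ _ _
    · rw [hya m _ h1, eY]
      exact c7 m _ _ _
  · have hinj : StrictMono (fun m => fq m (X m) (Y m) (L m)) := by
      apply strictMono_nat_of_lt_succ
      intro m
      have h1 := c2 m (X m) (Y m) (L m)
      have h2 := c1 (m + 1) (X (m + 1)) (Y (m + 1)) (L (m + 1))
      rw [← eL] at h1
      exact lt_trans h1 h2
    refine (Set.infinite_range_of_injective hinj.injective).mono ?_
    rintro _ ⟨m, rfl⟩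
    have h1 : fq m (X m) (Y m) (L m) < L (m + 1) := by
      rw [eL]
      exact c2 m _ _ _
    refine ⟨?_, ?_⟩
    · show y (fq m (X m) (Y m) (L m)) ≠ ⊤
      rw [hya m _ h1, eY]
      exact c10 m _ _ _
    · show x (fq m (X m) (Y m) (L m)) = ⊤
      rw [hxa m _ h1, eX]
      exact c9 m _ _ _
  · intro i
    obtain ⟨m, hm1, hm2⟩ : ∃ m, L m ≤ i ∧ i < L (m + 1) := by
      have hex : ∃ m, i < L (m + 1) := ⟨i, lt_of_lt_of_le (Nat.lt_succ_self i) hmono.le_apply⟩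
      classical
      refine ⟨Nat.find hex, ?_, Nat.find_spec hex⟩
      rcases Nat.eq_zero_or_pos (Nat.find hex) with h | h
      · rw [h]
        exact Nat.zero_le _
      · have := Nat.find_min hex (m := Nat.find hex - 1) (by omega)
        rw [Nat.sub_add_cancel h] at this
        exact not_lt.mp this
    have h := c11 m (X m) (Y m) (L m) i hm1 (by rw [← eL]; exact hm2)
    rw [← eX, ← eY, ← eL] at h
    rw [hxa m i hm2, hya m i hm2]
    rcases h with h | ⟨h1, k, h2, h3⟩ | ⟨h1, k, h2, h3⟩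
    · exact Or.inl h
    · exact Or.inr (Or.inl ⟨h1, k, h2 y (hy (m + 1)), h3⟩)
    · exact Or.inr (Or.inr ⟨h1, k, h2 x (hx (m + 1)), h3⟩)

lemma isOpen_gen {E : Type} [TopologicalSpace E] [DiscreteTopology E] (S : Set (ℕ → E)) :
    IsOpen S ↔ ∀ x ∈ S, ∃ n, ∀ y, (∀ i < n, y i = x i) → y ∈ S := by
  have hb := PiNat.isTopologicalBasis_cylinders (fun _ : ℕ => E)
  rw [hb.isOpen_iff]
  constructor
  · intro h x hx
    obtain ⟨t, ⟨z, n, rfl⟩, hxt, hts⟩ := h x hx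
    refine ⟨n, fun y hy => hts ?_⟩
    rw [PiNat.mem_cylinder_iff] at hxt ⊢
    intro i hi
    rw [hy i hi, hxt i hi]
  · intro h x hx
    obtain ⟨n, hn⟩ := h x hx
    exact ⟨PiNat.cylinder x n, ⟨x, n, rfl⟩, PiNat.self_mem_cylinder x n,
      fun y hy => hn y (PiNat.mem_cylinder_iff.mp hy)⟩

lemma baire_gen {E : Type} [TopologicalSpace E] [DiscreteTopology E] [Countable E] :
    BaireSpace (ℕ → E) := by
  have : PolishSpace E := inferInstance
  have : PolishSpace (ℕ → E) := inferInstance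
  infer_instance

lemma residual_gen {E : Type} [TopologicalSpace E] [DiscreteTopology E] [Countable E]
    (F : (ℕ → E) → ℕ → ℕ) (hF : ∀ n k, BaireMeasurableSet {x | F x n = k}) :
    ∃ (W : ℕ → Set (ℕ → E)) (U : ℕ → ℕ → Set (ℕ → E)),
    (∀ m, ∀ x ∈ W m, ∃ n, ∀ y, (∀ i < n, y i = x i) → y ∈ W m) ∧
    (∀ m (x : ℕ → E) l, ∃ y ∈ W m, (∀ i < l, y i = x i)) ∧
    (∀ n k, ∀ x ∈ U n k, ∃ l, ∀ y, (∀ i < l, y i = x i) → y ∈ U n k) ∧
    (∀ n (x : ℕ → E) l, ∃ k, ∃ y ∈ U n k, (∀ i < l, y i = x i)) ∧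
    ∀ x, (∀ m, x ∈ W m) → ∀ n k, x ∈ U n k → F x n = k := by
  have : BaireSpace (ℕ → E) := baire_gen
  have h1 : ∀ n k, ∃ u : Set (ℕ → E), IsOpen u ∧ {x | F x n = k} =ᶠ[residual _] u :=
    fun n k => (hF n k).residualEq_isOpen
  choose U hUo hUe using h1
  have hR : {x | ∀ n k, (F x n = k ↔ x ∈ U n k)} ∈ residual (ℕ → E) := by
    have : {x | ∀ n k, (F x n = k ↔ x ∈ U n k)} = ⋂ n, ⋂ k, {x | (F x n = k ↔ x ∈ U n k)} := by
      ext x
      simp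
    rw [this, countable_iInter_mem]
    intro n
    rw [countable_iInter_mem]
    intro k
    have := hUe n k
    rw [Filter.eventuallyEq_set] at this
    exact this
  have hRd : Dense {x | ∀ n k, (F x n = k ↔ x ∈ U n k)} := dense_of_mem_residual hR
  obtain ⟨S, hSo, hSd, hSc, hSR⟩ := mem_residual_iff.mp hR
  obtain ⟨W, hW⟩ : ∃ W : ℕ → Set (ℕ → E), insert univ S = range W :=
    (hSc.insert univ).exists_eq_range ⟨univ, mem_insert _ _⟩
  have hWm : ∀ m, W m ∈ insert univ S := fun m => by rw [hW]; exact mem_range_self m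
  have hWo : ∀ m, IsOpen (W m) := by
    intro m
    rcases hWm m with h | h
    · rw [h]
      exact isOpen_univ
    · exact hSo _ h
  have hWd : ∀ m, Dense (W m) := by
    intro m
    rcases hWm m with h | h
    · rw [h]
      exact dense_univ
    · exact hSd _ h
  have hcyl : ∀ (D : Set (ℕ → E)), Dense D → ∀ (x : ℕ → E) l, ∃ y ∈ D, (∀ i < l, y i = x i) := by
    intro D hD x l
    obtain ⟨y, hy1, hy2⟩ := hD.exists_mem_open
      (PiNat.isOpen_cylinder (fun _ : ℕ => E) x l) ⟨x, PiNat.self_mem_cylinder x l⟩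
    exact ⟨y, hy1, PiNat.mem_cylinder_iff.mp hy2⟩
  refine ⟨W, U, fun m => (isOpen_gen _).mp (hWo m), fun m => hcyl _ (hWd m),
    fun n k => (isOpen_gen _).mp (hUo n k), ?_, ?_⟩
  · intro n x l
    obtain ⟨y, hy1, hy2⟩ := hcyl _ hRd x l
    exact ⟨F y n, y, (hy1 n (F y n)).mp rfl, hy2⟩
  · intro x hx n k hk
    have : x ∈ ⋂₀ S := by
      intro t ht
      have : t ∈ range W := by
        rw [← hW]
        exact mem_insert_of_mem _ ht
      obtain ⟨m, rfl⟩ := this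
      exact hx m
    exact ((hSR this) n k).mpr hk

lemma residual_gen' {E : Type} [Countable E] (t : TopologicalSpace E) (ht : t = ⊥)
    (F : (ℕ → E) → ℕ → ℕ)
    (hF : ∀ n k, @BaireMeasurableSet (ℕ → E) (@Pi.topologicalSpace ℕ (fun _ => E) (fun _ => t))
      {x | F x n = k}) :
    ∃ (W : ℕ → Set (ℕ → E)) (U : ℕ → ℕ → Set (ℕ → E)),
    (∀ m, ∀ x ∈ W m, ∃ n, ∀ y, (∀ i < n, y i = x i) → y ∈ W m) ∧
    (∀ m (x : ℕ → E) l, ∃ y ∈ W m, (∀ i < l, y i = x i)) ∧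
    (∀ n k, ∀ x ∈ U n k, ∃ l, ∀ y, (∀ i < l, y i = x i) → y ∈ U n k) ∧
    (∀ n (x : ℕ → E) l, ∃ k, ∃ y ∈ U n k, (∀ i < l, y i = x i)) ∧
    ∀ x, (∀ m, x ∈ W m) → ∀ n k, x ∈ U n k → F x n = k := by
  have : DiscreteTopology E := ⟨ht⟩
  exact residual_gen F hF

end PoolH73Nabla
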